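import Pool.Agent.Helper29.Frege.Young

/-!
# Ballot words and standard tableaux numbers
-/

namespace Pool.Agent.Helper68.FZ

open Finset Helper29.Yng

/-- Number of letters `i` of the word `r`. -/
def cnt {n : ℕ} (r : Fin n → ℕ) (i : ℕ) : ℕ := (univ.filter fun l => r l = i).card

/-- Ballot words. -/
def Ballot {n : ℕ} (r : Fin n → ℕ) : Prop := ∀ k ≤ n, ∀ i,
  (univ.filter fun l : Fin n => (l : ℕ) < k ∧ r l = i + 1).card ≤
    (univ.filter fun l : Fin n => (l : ℕ) < k ∧ r l = i).card

theorem card_filter_castSucc {n : ℕ} (P : Fin (n + 1) → Prop) [DecidablePred P] :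
    (univ.filter P).card = (univ.filter fun l : Fin n => P l.castSucc).card +
      if P (Fin.last n) then 1 else 0 := by
  rw [Finset.card_filter, Finset.card_filter, Fin.sum_univ_castSucc]

theorem cnt_succ {n : ℕ} (r : Fin (n + 1) → ℕ) (i : ℕ) :
    cnt r i = cnt (Fin.init r) i + if r (Fin.last n) = i then 1 else 0 := by
  unfold cnt
  rw [card_filter_castSucc]
  rfl

theorem prefix_succ {n : ℕ} (r : Fin (n + 1) → ℕ) {k : ℕ} (hk : k ≤ n) (i : ℕ) :
    (univ.filter fun l : Fin (n + 1) => (l : ℕ) < k ∧ r l = i).card =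
      (univ.filter fun l : Fin n => (l : ℕ) < k ∧ (Fin.init r : Fin n → ℕ) l = i).card := by
  rw [card_filter_castSucc, if_neg]
  · rfl
  · rintro ⟨h, -⟩
    rw [Fin.val_last] at h
    omega

theorem prefix_full {n : ℕ} (r : Fin n → ℕ) (i : ℕ) :
    (univ.filter fun l : Fin n => (l : ℕ) < n ∧ r l = i).card = cnt r i := by
  unfold cnt
  congr 1
  ext l
  simp

theorem Ballot.prt {n : ℕ} {r : Fin n → ℕ} (h : Ballot r) (i : ℕ) : cnt r (i + 1) ≤ cnt r i := by
  have := h n le_rfl i
  rwa [prefix_full, prefix_full] at this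

theorem ballot_succ {n : ℕ} (r : Fin (n + 1) → ℕ) :
    Ballot r ↔ Ballot (Fin.init r : Fin n → ℕ) ∧ ∀ i, cnt r (i + 1) ≤ cnt r i := by
  constructor
  · intro h
    refine ⟨fun k hk i => ?_, h.prt⟩
    have := h k (by omega) i
    rwa [prefix_succ r hk, prefix_succ r hk] at this
  · rintro ⟨h1, h2⟩ k hk i
    rcases Nat.lt_or_ge n k with h | h
    · have h3 : k = n + 1 := by omega
      rw [h3, prefix_full, prefix_full]
      exact h2 i
    · rw [prefix_succ r h, prefix_succ r h]
      exact h1 k h i

open Classical in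
/-- Ballot words of content `l`. -/
noncomputable def BW : (n : ℕ) → (ℕ →₀ ℕ) → Finset (Fin n → ℕ)
  | 0, _ => {fun _ => 0}
  | n + 1, l => (R l).biUnion fun i => (BW n (l - e i)).image fun r => Fin.snoc (α := fun _ => ℕ) r i

theorem mem_BW {n : ℕ} : ∀ {l : ℕ →₀ ℕ}, l ∈ Y n → ∀ {r : Fin n → ℕ},
    r ∈ BW n l ↔ Ballot r ∧ ∀ i, cnt r i = l i := by
  induction n with
  | zero =>
    intro l hl r
    rw [mem_Y] at hl
    have h0 := prt_eq_zero hl.2
    subst h0
    unfold BW
    rw [Finset.mem_singleton]
    constructor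
    · intro _
      exact ⟨fun k _ i => by simp, fun i => by simp [cnt]⟩
    · intro _
      exact Subsingleton.elim _ _
  | succ n ih =>
    intro l hl r
    have hl' := mem_Y.1 hl
    unfold BW
    rw [Finset.mem_biUnion]
    constructor
    · rintro ⟨i, hi, hr⟩
      rw [Finset.mem_image] at hr
      obtain ⟨r', hr', rfl⟩ := hr
      have h1 : l - e i ∈ Y n := by
        rw [mem_Y]
        have h2 : sz (l - e i) + 1 = sz l := sz_down hl'.1 hi
        have h3 : sz l = n + 1 := hl'.2
        exact ⟨hl'.1.down hi, by omega⟩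
      have h2 := (ih h1).1 hr'
      have h3 : ∀ j, cnt (Fin.snoc (α := fun _ => ℕ) r' i : Fin (n + 1) → ℕ) j = l j := by
        intro j
        rw [cnt_succ, Fin.init_snoc, Fin.snoc_last, h2.2, sub_e_apply]
        have := one_le_of_R hl'.1 hi
        split_ifs with h4
        · subst h4
          omega
        · omega
      refine ⟨?_, h3⟩
      rw [ballot_succ, Fin.init_snoc]
      refine ⟨h2.1, fun j => ?_⟩
      rw [h3, h3]
      exact hl'.1 j
    · rintro ⟨h1, h2⟩
      rw [ballot_succ] at h1
      obtain ⟨h3, -⟩ := h1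
      have h4 : ∀ j, cnt (Fin.init r : Fin n → ℕ) j + (if r (Fin.last n) = j then 1 else 0) = l j := by
        intro j
        rw [← h2 j, cnt_succ]
      have hi : r (Fin.last n) ∈ R l := by
        rw [mem_R hl'.1]
        have h5 := h4 (r (Fin.last n))
        have h6 := h4 (r (Fin.last n) + 1)
        have h7 := h3.prt (r (Fin.last n))
        rw [if_pos rfl] at h5
        rw [if_neg (by omega)] at h6
        omega
      refine ⟨r (Fin.last n), hi, ?_⟩
      rw [Finset.mem_image]
      refine ⟨Fin.init r, ?_, Fin.snoc_init_self r⟩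
      have h1 : l - e (r (Fin.last n)) ∈ Y n := by
        rw [mem_Y]
        have h2 : sz (l - e (r (Fin.last n))) + 1 = sz l := sz_down hl'.1 hi
        have h3 : sz l = n + 1 := hl'.2
        exact ⟨hl'.1.down hi, by omega⟩
      rw [ih h1]
      refine ⟨h3, fun j => ?_⟩
      rw [sub_e_apply, ← h4 j]
      split_ifs <;> omega

theorem card_BW {n : ℕ} : ∀ {l : ℕ →₀ ℕ}, l ∈ Y n → (BW n l).card = f l := by
  induction n with
  | zero =>
    intro l hl
    rw [mem_Y] at hl
    rw [prt_eq_zero hl.2, f_zero]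
    rfl
  | succ n ih =>
    intro l hl
    have hl' := mem_Y.1 hl
    unfold BW
    rw [Finset.card_biUnion, f_rec hl'.1 (by have : sz l = n + 1 := hl'.2; omega)]
    · refine Finset.sum_congr rfl fun i hi => ?_
      have h1 : l - e i ∈ Y n := by
        rw [mem_Y]
        have h2 : sz (l - e i) + 1 = sz l := sz_down hl'.1 hi
        have h3 : sz l = n + 1 := hl'.2
        exact ⟨hl'.1.down hi, by omega⟩
      rw [Finset.card_image_of_injective, ih h1]
      intro r r' h
      have := congrArg (fun g : Fin (n + 1) → ℕ => (Fin.init g : Fin n → ℕ)) h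
      simpa only [Fin.init_snoc] using this
    · intro i _ j _ hij
      rw [Function.onFun, Finset.disjoint_left]
      intro r hr hr'
      rw [Finset.mem_image] at hr hr'
      obtain ⟨r1, -, h1⟩ := hr
      obtain ⟨r2, -, h2⟩ := hr'
      apply hij
      have := congrArg (fun g : Fin (n + 1) → ℕ => g (Fin.last n)) (h1.trans h2.symm)
      simpa only [Fin.snoc_last] using this

/-- The content of a word. -/
noncomputable def content {n : ℕ} (r : Fin n → ℕ) : ℕ →₀ ℕ := ∑ l, e (r l)

theorem content_apply {n : ℕ} (r : Fin n → ℕ) (i : ℕ) : content r i = cnt r i := by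
  unfold content cnt
  rw [Finsupp.finsetSum_apply, Finset.card_filter]
  refine Finset.sum_congr rfl fun l _ => ?_
  rw [e_apply]

theorem sz_content {n : ℕ} (r : Fin n → ℕ) : sz (content r) = n := by
  unfold content
  have h : ∀ S : Finset (Fin n), sz (∑ l ∈ S, e (r l)) = S.card := by
    intro S
    induction S using Finset.induction_on with
    | empty => simp [sz]
    | insert a S ha ih =>
      rw [Finset.sum_insert ha, sz_add, sz_e, ih, Finset.card_insert_of_notMem ha, add_comm]
  rw [h]
  simp

theorem Ballot.content_mem {n : ℕ} {r : Fin n → ℕ} (h : Ballot r) : content r ∈ Y n := by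
  rw [mem_Y]
  refine ⟨fun i => ?_, sz_content r⟩
  rw [content_apply, content_apply]
  exact h.prt i

theorem mem_BW_content {n : ℕ} {r : Fin n → ℕ} (h : Ballot r) : r ∈ BW n (content r) := by
  rw [mem_BW h.content_mem]
  exact ⟨h, fun i => (content_apply r i).symm⟩

end Pool.Agent.Helper68.FZ
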