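import Mathlib

/-!
# Signed sums over column preserving bijections
-/

namespace Pool.Agent.Helper68.FZ

open Finset

variable {α β : Type*} [DecidableEq α] [DecidableEq β]

/-- `σ` is a matching. -/
def IsM (σ : Finset (α × β)) : Prop :=
  ∀ e ∈ σ, ∀ e' ∈ σ, (e.1 = e'.1 ∨ e.2 = e'.2) → e = e'

variable {D : Type*} [Fintype D] [DecidableEq D] {C : Type*} [DecidableEq C]
  (col : D → C) (iA : D → α) (iB : D → β)

/-- The graph of a permutation of the cells. -/
def gr (π : Equiv.Perm D) : Finset (α × β) := univ.image fun d => (iA d, iB (π d))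

/-- Column preserving permutations. -/
def PP : Finset (Equiv.Perm D) := univ.filter fun π => ∀ d, col (π d) = col d

/-- The sign in `K`. -/
def sg (K : Type*) [Field K] (π : Equiv.Perm D) : K := ((Equiv.Perm.sign π : ℤˣ) : ℤ)

/-- The signed number of column preserving bijections containing `τ`. -/
def nu (K : Type*) [Field K] (τ : Finset (α × β)) : K :=
  ∑ π ∈ (PP col).filter (fun π => τ ⊆ gr iA iB π), sg K π

variable {col iA iB}

theorem mem_gr {π : Equiv.Perm D} {e : α × β} :
    e ∈ gr iA iB π ↔ ∃ d, (iA d, iB (π d)) = e := by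
  simp [gr]

theorem mem_PP {π : Equiv.Perm D} : π ∈ PP col ↔ ∀ d, col (π d) = col d := by
  simp [PP]

theorem isM_gr (hA : Function.Injective iA) (hB : Function.Injective iB) (π : Equiv.Perm D) :
    IsM (gr iA iB π) := by
  intro e he e' he' h
  obtain ⟨d, rfl⟩ := mem_gr.1 he
  obtain ⟨d', rfl⟩ := mem_gr.1 he'
  rcases h with h | h
  · rw [hA h]
  · rw [π.injective (hB h)]

theorem IsM.mono {σ τ : Finset (α × β)} (h : IsM τ) (hs : σ ⊆ τ) : IsM σ :=
  fun e he e' he' hh => h e (hs he) e' (hs he') hh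

theorem sg_mul_swap (K : Type*) [Field K] (π : Equiv.Perm D) {d d' : D} (h : d ≠ d') :
    sg K (π * Equiv.swap d d') = - sg K π := by
  unfold sg
  rw [Equiv.Perm.sign_mul, Equiv.Perm.sign_swap h]
  simp

theorem exists_of_nu_ne_zero {K : Type*} [Field K] {τ : Finset (α × β)}
    (h : nu col iA iB K τ ≠ 0) : ∃ π ∈ PP col, τ ⊆ gr iA iB π := by
  obtain ⟨π, hπ, -⟩ := Finset.exists_ne_zero_of_sum_ne_zero h
  rw [Finset.mem_filter] at hπ
  exact ⟨π, hπ.1, hπ.2⟩

theorem swap_mem_PP {π : Equiv.Perm D} (hπ : π ∈ PP col) {d d' : D} (h : col d = col d') :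
    π * Equiv.swap d d' ∈ PP col := by
  rw [mem_PP] at *
  intro x
  rw [Equiv.Perm.mul_apply, hπ]
  by_cases h1 : x = d
  · rw [h1, Equiv.swap_apply_left, h]
  · by_cases h2 : x = d'
    · rw [h2, Equiv.swap_apply_right, h]
    · rw [Equiv.swap_apply_of_ne_of_ne h1 h2]

/-- A signed sum over column preserving permutations satisfying a condition which is invariant
under a transposition in a column vanishes. -/
theorem sum_swap_zero (K : Type*) [Field K] (Q : Equiv.Perm D → Prop) [DecidablePred Q]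
    {d d' : D} (hne : d ≠ d') (hcol : col d = col d')
    (hQ : ∀ π ∈ PP col, Q π → Q (π * Equiv.swap d d')) :
    ∑ π ∈ (PP col).filter Q, sg K π = 0 := by
  refine Finset.sum_involution (fun π _ => π * Equiv.swap d d') ?_ ?_ ?_ ?_
  · intro π _
    rw [sg_mul_swap K π hne, add_neg_cancel]
  · intro π _ _ h
    have h1 : Equiv.swap d d' = 1 := by
      have := congrArg (fun x => π⁻¹ * x) h
      simpa using this
    rw [Equiv.swap_eq_one_iff] at h1
    exact hne h1
  · intro π hπ
    rw [Finset.mem_filter] at *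
    exact ⟨swap_mem_PP hπ.1 hcol, hQ π hπ.1 hπ.2⟩
  · intro π _
    rw [mul_assoc, Equiv.swap_mul_self, mul_one]

theorem nu_eq_zero_of_free (K : Type*) [Field K] {τ : Finset (α × β)} {d d' : D} (hne : d ≠ d')
    (hcol : col d = col d') (hd : ∀ e ∈ τ, e.1 ≠ iA d) (hd' : ∀ e ∈ τ, e.1 ≠ iA d') :
    nu col iA iB K τ = 0 := by
  unfold nu
  refine sum_swap_zero K _ hne hcol ?_
  intro π _ hτ e he
  obtain ⟨x, hx⟩ := mem_gr.1 (hτ he)
  have h1 : x ≠ d := by
    rintro rfl
    exact hd e he (by rw [← hx])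
  have h2 : x ≠ d' := by
    rintro rfl
    exact hd' e he (by rw [← hx])
  rw [mem_gr]
  exact ⟨x, by rw [Equiv.Perm.mul_apply, Equiv.swap_apply_of_ne_of_ne h1 h2, hx]⟩

theorem nu_left [Fintype β] (K : Type*) [Field K] (hA : Function.Injective iA)
    (hB : Function.Injective iB) (τ : Finset (α × β)) (d : D) (hd : ∀ e ∈ τ, e.1 ≠ iA d) :
    ∑ b ∈ univ.filter (fun b => ∀ e ∈ τ, e.2 ≠ b), nu col iA iB K (insert (iA d, b) τ) =
      nu col iA iB K τ := by
  classical
  unfold nu
  have h1 : ∀ b, (PP col).filter (fun π => insert (iA d, b) τ ⊆ gr iA iB π) =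
      ((PP col).filter (fun π => τ ⊆ gr iA iB π)).filter (fun π => iB (π d) = b) := by
    intro b
    ext π
    simp only [Finset.mem_filter, Finset.insert_subset_iff]
    constructor
    · rintro ⟨h1, h2, h3⟩
      obtain ⟨x, hx⟩ := mem_gr.1 h2
      have hx1 : iA x = iA d := congrArg Prod.fst hx
      have hx2 : iB (π x) = b := congrArg Prod.snd hx
      rw [hA hx1] at hx2
      exact ⟨⟨h1, h3⟩, hx2⟩
    · rintro ⟨⟨h1, h3⟩, h2⟩
      exact ⟨h1, mem_gr.2 ⟨d, by rw [h2]⟩, h3⟩
  simp only [h1]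
  rw [Finset.sum_fiberwise_of_maps_to]
  intro π hπ
  rw [Finset.mem_filter] at *
  refine ⟨Finset.mem_univ _, fun e he h => ?_⟩
  obtain ⟨x, hx⟩ := mem_gr.1 (hπ.2 he)
  have hx2 : iB (π x) = iB (π d) := by
    have := congrArg Prod.snd hx
    exact this.trans h
  have hx3 : x = d := π.injective (hB hx2)
  exact hd e he (by rw [← hx, hx3])

theorem nu_right [Fintype α] (K : Type*) [Field K] (hA : Function.Injective iA)
    (hB : Function.Injective iB) (τ : Finset (α × β)) (d : D) (hd : ∀ e ∈ τ, e.2 ≠ iB d) :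
    ∑ a ∈ univ.filter (fun a => ∀ e ∈ τ, e.1 ≠ a), nu col iA iB K (insert (a, iB d) τ) =
      nu col iA iB K τ := by
  classical
  unfold nu
  have h1 : ∀ a, (PP col).filter (fun π => insert (a, iB d) τ ⊆ gr iA iB π) =
      ((PP col).filter (fun π => τ ⊆ gr iA iB π)).filter (fun π => iA (π⁻¹ d) = a) := by
    intro a
    ext π
    simp only [Finset.mem_filter, Finset.insert_subset_iff]
    constructor
    · rintro ⟨h1, h2, h3⟩
      obtain ⟨x, hx⟩ := mem_gr.1 h2
      have hx1 : iA x = a := congrArg Prod.fst hx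
      have hx2 : iB (π x) = iB d := congrArg Prod.snd hx
      have hx3 : π⁻¹ d = x := by rw [← hB hx2]; simp
      exact ⟨⟨h1, h3⟩, by rw [hx3, hx1]⟩
    · rintro ⟨⟨h1, h3⟩, h2⟩
      exact ⟨h1, mem_gr.2 ⟨π⁻¹ d, by rw [h2]; simp⟩, h3⟩
  simp only [h1]
  rw [Finset.sum_fiberwise_of_maps_to]
  intro π hπ
  rw [Finset.mem_filter] at *
  refine ⟨Finset.mem_univ _, fun e he h => ?_⟩
  obtain ⟨x, hx⟩ := mem_gr.1 (hπ.2 he)
  have hx1 : iA x = iA (π⁻¹ d) := (congrArg Prod.fst hx).trans h
  have hx2 : x = π⁻¹ d := hA hx1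
  refine hd e he ?_
  rw [← hx, hx2]
  simp

/-- Edges at vertices outside the cells. -/
theorem nu_eq_zero_of_not_left (K : Type*) [Field K] {τ : Finset (α × β)} {e : α × β}
    (he : e ∈ τ) (h : ∀ d, iA d ≠ e.1) : nu col iA iB K τ = 0 := by
  by_contra hne
  obtain ⟨π, -, hτ⟩ := exists_of_nu_ne_zero hne
  obtain ⟨x, hx⟩ := mem_gr.1 (hτ he)
  exact h x (congrArg Prod.fst hx)

theorem nu_eq_zero_of_not_right (K : Type*) [Field K] {τ : Finset (α × β)} {e : α × β}
    (he : e ∈ τ) (h : ∀ d, iB d ≠ e.2) : nu col iA iB K τ = 0 := by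
  by_contra hne
  obtain ⟨π, -, hτ⟩ := exists_of_nu_ne_zero hne
  obtain ⟨x, hx⟩ := mem_gr.1 (hτ he)
  exact h (π x) (congrArg Prod.snd hx)

/-- Small matchings. `k` is the number of columns. -/
theorem nu_eq_zero_of_card_lt (K : Type*) [Field K] (hA : Function.Injective iA)
    {τ : Finset (α × β)} {k : ℕ} (hk : (univ.image col).card ≤ k)
    (h : τ.card + k < Fintype.card D) : nu col iA iB K τ = 0 := by
  classical
  by_contra hne
  -- free cells
  let S : Finset D := univ.filter fun d => ∀ e ∈ τ, e.1 ≠ iA d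
  have hS : k < S.card := by
    have h1 : (univ \ S).card ≤ τ.card := by
      have h2 : (univ \ S).image iA ⊆ τ.image Prod.fst := by
        intro a ha
        rw [Finset.mem_image] at ha
        obtain ⟨d, hd, rfl⟩ := ha
        simp only [S, Finset.mem_sdiff, Finset.mem_univ, true_and, Finset.mem_filter, ne_eq,
          not_forall, not_not] at hd
        obtain ⟨e, he, h3⟩ := hd
        exact Finset.mem_image.2 ⟨e, he, h3⟩
      calc (univ \ S).card = ((univ \ S).image iA).card :=
            (Finset.card_image_of_injective _ hA).symm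
        _ ≤ (τ.image Prod.fst).card := Finset.card_le_card h2
        _ ≤ τ.card := Finset.card_image_le
    have h2 : (univ \ S).card = Fintype.card D - S.card := by
      rw [Finset.card_sdiff_of_subset (Finset.subset_univ _), Finset.card_univ]
    omega
  have h3 : (univ.image col).card < S.card := by omega
  obtain ⟨d, hd, d', hd', hne', hcol⟩ := Finset.exists_ne_map_eq_of_card_lt_of_maps_to h3
    (fun d _ => Finset.mem_coe.2 (Finset.mem_image.2 ⟨d, Finset.mem_univ _, rfl⟩))
  simp only [S, Finset.mem_filter, Finset.mem_univ, true_and] at hd hd'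
  exact hne (nu_eq_zero_of_free K hne' hcol hd hd')

end Pool.Agent.Helper68.FZ
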